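import Mathlib

set_option autoImplicit false

/-!
# A monotone (hence hereditary) class of graphs whose speed is not MC-finite

Let `H t` be the blow-up of the cycle of odd length `t ≥ 5` whose vertices are replaced by
independent sets of sizes `1, 2, 4, …, 2 ^ (t - 1)`. No `H s` is a subgraph of another `H t`, by the
odd girth, and the number of labelled copies of `H t`, which is `(2 ^ t - 1)! / ∏ (2 ^ j)!`, is odd.
For a set `S` of numbers let `cls S` be the class consisting of the graphs containing no `H t` at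
all, and of the graphs isomorphic to `H t` with `t ∈ S`. It is monotone, and its speed modulo 2
determines `S`. There are uncountably many `S`, but only countably many sequences modulo 2
satisfying a linear recurrence.
-/

namespace Pool.Agent.Results.MP_337eac_co.NotMCFinite

/-- A class of finite graphs, given by its members with vertex set `{0, …, n - 1}` for every `n`, is
hereditary: closed under isomorphism and induced subgraphs. (`G.comap e` is the graph on
`{0, …, m - 1}` which the injection `e` identifies with an induced subgraph of `G`.) -/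
def Hereditary (C : ∀ n : ℕ, Set (SimpleGraph (Fin n))) : Prop :=
  ∀ (m n : ℕ) (e : Fin m ↪ Fin n) (G : SimpleGraph (Fin n)), G ∈ C n → G.comap e ∈ C m

/-- A class of finite graphs is monotone: closed under isomorphism and subgraphs. -/
def MonotoneClass (C : ∀ n : ℕ, Set (SimpleGraph (Fin n))) : Prop :=
  ∀ (m n : ℕ) (e : Fin m ↪ Fin n) (G : SimpleGraph (Fin n)), G ∈ C n →
    ∀ G' : SimpleGraph (Fin m), G' ≤ G.comap e → G' ∈ C m

/-- The speed: the number of labelled graphs with `n` vertices in the class. -/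
noncomputable def speed (C : ∀ n : ℕ, Set (SimpleGraph (Fin n))) (n : ℕ) : ℕ := (C n).ncard

/-- A sequence is MC-finite: for every `m ≥ 1` it satisfies eventually a linear recurrence with
constant coefficients modulo `m`. -/
def MCFinite (s : ℕ → ℕ) : Prop :=
  ∀ m : ℕ, 1 ≤ m → ∃ r p : ℕ, 1 ≤ r ∧ 1 ≤ p ∧ ∃ α : ℕ → ℤ, ∀ n ≥ r,
    (s (n + p) : ℤ) ≡ ∑ i ∈ Finset.range p, α i * (s (n + i) : ℤ) [ZMOD m]

/-! ### The graphs -/

/-- The block of a vertex. -/
def blk {n : ℕ} (v : Fin n) : ℕ := Nat.log 2 (v + 1)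

/-- The blow-up of the cycle of length `t` with parts of sizes `1, 2, …, 2 ^ (t - 1)`. -/
def H (t : ℕ) : SimpleGraph (Fin (2 ^ t - 1)) where
  Adj u v := u ≠ v ∧ ((blk u : ZMod t) = blk v + 1 ∨ (blk v : ZMod t) = blk u + 1)
  symm := ⟨fun _ _ h => ⟨h.1.symm, h.2.symm⟩⟩
  loopless := ⟨fun _ h => h.1 rfl⟩

/-- The class of graphs which contain no `H t` (`t ≥ 5` odd) as a subgraph, together with the
graphs isomorphic to `H t`, `t ∈ S`. -/
def cls (S : Set ℕ) (n : ℕ) : Set (SimpleGraph (Fin n)) :=
  {G | ∀ t, 5 ≤ t → Odd t → (H t).IsContained G → t ∈ S ∧ Nonempty (G ≃g H t)}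

lemma blk_lt {t : ℕ} (v : Fin (2 ^ t - 1)) : blk v < t := by
  unfold blk
  have h1 := v.isLt
  have h2 : (v : ℕ) + 1 < 2 ^ t := by omega
  rcases Nat.eq_zero_or_pos t with h | h
  · subst h; simp at h1
  · exact Nat.log_lt_of_lt_pow (by omega) h2

/-- A vertex of block `j`. -/
def rep {t j : ℕ} (hj : j < t) : Fin (2 ^ t - 1) := ⟨2 ^ j - 1, by
  have h1 : 2 ^ j < 2 ^ t := Nat.pow_lt_pow_right (by norm_num) hj
  have h2 : 1 ≤ 2 ^ j := Nat.one_le_two_pow
  omega⟩

lemma blk_rep {t j : ℕ} (hj : j < t) : blk (rep hj) = j := by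
  unfold blk rep
  have h2 : 1 ≤ 2 ^ j := Nat.one_le_two_pow
  have : 2 ^ j - 1 + 1 = 2 ^ j := by omega
  simp only [this]
  exact Nat.log_pow (by norm_num) j

lemma cast_inj {t i j : ℕ} (hi : i < t) (hj : j < t) (h : (i : ZMod t) = j) : i = j := by
  have := (ZMod.natCast_eq_natCast_iff' i j t).mp h
  rwa [Nat.mod_eq_of_lt hi, Nat.mod_eq_of_lt hj] at this

lemma zmod_ne {t k : ℕ} (h0 : 0 < k) (hk : k < t) : (k : ZMod t) ≠ 0 := by
  rw [Ne, ZMod.natCast_eq_zero_iff]
  exact fun h => absurd (Nat.le_of_dvd h0 h) (by omega)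

lemma H_adj {t : ℕ} (ht : 5 ≤ t) (u v : Fin (2 ^ t - 1)) :
    (H t).Adj u v ↔ ((blk u : ZMod t) = blk v + 1 ∨ (blk v : ZMod t) = blk u + 1) := by
  constructor
  · exact fun h => h.2
  · intro h
    refine ⟨?_, h⟩
    rintro rfl
    have h1 : (1 : ZMod t) = 0 := by
      rcases h with h | h <;> linear_combination -h
    exact zmod_ne (t := t) (k := 1) (by norm_num) (by omega) (by simpa using h1)

/-- No embedding between different graphs `H s`, `H t`. -/
lemma eq_of_contained {s t : ℕ} (hs : 5 ≤ s) (ht : 5 ≤ t) (hso : Odd s)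
    (h : (H s).IsContained (H t)) : s = t := by
  have : NeZero s := ⟨by omega⟩
  have : NeZero t := ⟨by omega⟩
  obtain ⟨φ⟩ := h
  have hle : s ≤ t := by
    have h1 := Fintype.card_le_of_injective _ φ.injective
    rw [Fintype.card_fin, Fintype.card_fin] at h1
    have h2 : 1 ≤ 2 ^ s := Nat.one_le_two_pow
    have h3 : 1 ≤ 2 ^ t := Nat.one_le_two_pow
    exact (Nat.pow_le_pow_iff_right (by norm_num : 1 < 2)).mp (by omega : 2 ^ s ≤ 2 ^ t)
  by_contra hne
  -- the cycle
  let c : ZMod s → ZMod t := fun i => (blk (φ (rep (ZMod.val_lt i))) : ZMod t)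
  have hc : ∀ j : ZMod s, (c (j + 1) = c j + 1 ∨ c j = c (j + 1) + 1) := by
    intro j
    have h1 : (H s).Adj (rep (ZMod.val_lt (j + 1))) (rep (ZMod.val_lt j)) := by
      rw [H_adj hs, blk_rep, blk_rep, ZMod.natCast_zmod_val, ZMod.natCast_zmod_val]
      exact Or.inl rfl
    exact (H_adj ht _ _).mp (φ.toHom.map_adj h1)
  have key : ∀ k : ℕ, ∃ z : ℤ, |z| ≤ k ∧ (Even (z - k)) ∧ c (k : ZMod s) = c 0 + (z : ZMod t) := by
    intro k
    induction k with
    | zero => exact ⟨0, by simp, by simp, by simp⟩
    | succ k ih =>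
      obtain ⟨z, hz1, hz2, hz3⟩ := ih
      rcases hc (k : ZMod s) with h | h
      · refine ⟨z + 1, ?_, ?_, ?_⟩
        · have := abs_add_le z 1
          rw [abs_one] at this
          push_cast; linarith
        · have : z + 1 - ((k + 1 : ℕ) : ℤ) = z - k := by push_cast; ring
          rw [this]; exact hz2
        · push_cast
          rw [h, hz3]; ring
      · refine ⟨z - 1, ?_, ?_, ?_⟩
        · have := abs_sub z 1
          rw [abs_one] at this
          push_cast; linarith
        · have : z - 1 - ((k + 1 : ℕ) : ℤ) = z - k - 2 := by push_cast; ring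
          rw [this]
          exact hz2.sub (by norm_num)
        · push_cast
          rw [hz3] at h
          linear_combination -h
  obtain ⟨z, hz1, hz2, hz3⟩ := key s
  rw [ZMod.natCast_self] at hz3
  have hz4 : (z : ZMod t) = 0 := by linear_combination -hz3
  rw [ZMod.intCast_zmod_eq_zero_iff_dvd] at hz4
  have hz5 : z = 0 := Int.eq_zero_of_abs_lt_dvd hz4 (by omega)
  rw [hz5, zero_sub, even_neg, Int.even_coe_nat] at hz2
  exact (Nat.not_even_iff_odd.mpr hso) hz2

/-! ### Counting labelled copies -/

lemma card_block {t j : ℕ} (hj : j < t) :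
    (Finset.univ.filter (fun w : Fin (2 ^ t - 1) => blk w = j)).card = 2 ^ j := by
  have h1 : (Finset.univ.filter (fun w : Fin (2 ^ t - 1) => blk w = j)).card =
      (Finset.Ico (2 ^ j - 1) (2 ^ (j + 1) - 1)).card := by
    have hp : 1 ≤ 2 ^ j := Nat.one_le_two_pow
    have hp2 : 2 ^ (j + 1) = 2 * 2 ^ j := by ring
    apply Finset.card_bij (fun (w : Fin (2 ^ t - 1)) _ => (w : ℕ))
    · intro w hw
      have hw' := (Finset.mem_filter.mp hw).2
      unfold blk at hw'
      rw [Nat.log_eq_iff (Or.inr ⟨by norm_num, by omega⟩)] at hw'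
      rw [Finset.mem_Ico]
      omega
    · intro a _ b _ h
      exact Fin.ext h
    · intro x hx
      rw [Finset.mem_Ico] at hx
      have hp3 : 2 ^ (j + 1) ≤ 2 ^ t := Nat.pow_le_pow_right (by norm_num) hj
      refine ⟨⟨x, by omega⟩, Finset.mem_filter.mpr ⟨Finset.mem_univ _, ?_⟩, rfl⟩
      unfold blk
      rw [Nat.log_eq_iff (Or.inr ⟨by norm_num, by omega⟩)]
      simp only
      omega
  rw [h1, Nat.card_Ico]
  have hp : 1 ≤ 2 ^ j := Nat.one_le_two_pow
  have hp2 : 2 ^ (j + 1) = 2 * 2 ^ j := by ring
  omega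

lemma twin_iff {t : ℕ} (ht : 5 ≤ t) (w u : Fin (2 ^ t - 1)) :
    (∀ x, (H t).Adj w x ↔ (H t).Adj u x) ↔ blk w = blk u := by
  have : NeZero t := ⟨by omega⟩
  constructor
  · intro h
    have h1 := h (rep (ZMod.val_lt ((blk u : ZMod t) + 1)))
    have h2 := h (rep (ZMod.val_lt ((blk u : ZMod t) - 1)))
    rw [H_adj ht, H_adj ht, blk_rep, ZMod.natCast_zmod_val] at h1 h2
    apply cast_inj (blk_lt w) (blk_lt u)
    have h1' := h1.mpr (Or.inr rfl)
    have h2' := h2.mpr (Or.inl (by ring))
    rcases h1' with h1' | h1'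
    · rcases h2' with h2' | h2'
      · rw [h2']; ring
      · exfalso
        have t4 : (4 : ZMod t) ≠ 0 := by
          simpa using zmod_ne (t := t) (k := 4) (by norm_num) (by omega)
        apply t4
        linear_combination -h1' - h2'
    · exact (add_right_cancel h1').symm
  · intro h x
    rw [H_adj ht, H_adj ht, h]

lemma aut_iff {t : ℕ} (ht : 5 ≤ t) (g : Equiv.Perm (Fin (2 ^ t - 1))) :
    (H t).comap g = H t ↔ ∀ v, blk (g v) = blk v := by
  classical
  constructor
  · intro h v
    have hadj : ∀ u w, (H t).Adj (g u) (g w) ↔ (H t).Adj u w := by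
      intro u w
      have := congrArg (fun K : SimpleGraph _ => K.Adj u w) h
      simp only [SimpleGraph.comap_adj] at this
      exact iff_of_eq this
    -- the number of twins is preserved
    have hcard : (Finset.univ.filter (fun w : Fin (2 ^ t - 1) => blk w = blk (g v))).card =
        (Finset.univ.filter (fun w : Fin (2 ^ t - 1) => blk w = blk v)).card := by
      symm
      apply Finset.card_bij (fun w _ => g w)
      · intro w hw
        have hw' := (Finset.mem_filter.mp hw).2
        rw [← twin_iff ht] at hw'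
        refine Finset.mem_filter.mpr ⟨Finset.mem_univ _, ?_⟩
        rw [← twin_iff ht]
        intro x
        obtain ⟨y, rfl⟩ := g.surjective x
        rw [hadj, hadj]
        exact hw' y
      · intro a _ b _ hab
        exact g.injective hab
      · intro x hx
        have hx' := (Finset.mem_filter.mp hx).2
        rw [← twin_iff ht] at hx'
        obtain ⟨y, rfl⟩ := g.surjective x
        refine ⟨y, Finset.mem_filter.mpr ⟨Finset.mem_univ _, ?_⟩, rfl⟩
        rw [← twin_iff ht]
        intro z
        rw [← hadj y z, ← hadj v z]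
        exact hx' (g z)
    rw [card_block (blk_lt _), card_block (blk_lt _)] at hcard
    exact Nat.pow_right_injective (le_refl 2) hcard
  · intro h
    ext u w
    rw [SimpleGraph.comap_adj, H_adj ht, H_adj ht, h, h]

/-- The labelled copies of `H t`. -/
def copies (t : ℕ) : Set (SimpleGraph (Fin (2 ^ t - 1))) := {G | Nonempty (G ≃g H t)}

lemma card_copies {t : ℕ} (ht : 5 ≤ t) :
    (copies t).ncard * ∏ j ∈ Finset.range t, (2 ^ j).factorial = (2 ^ t - 1).factorial := by
  classical
  set n := 2 ^ t - 1 with hn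
  have haut : (Finset.univ.filter (fun g : Equiv.Perm (Fin n) => (H t).comap g = H t)).card =
      ∏ j ∈ Finset.range t, (2 ^ j).factorial := by
    let f : Fin n → Fin t := fun v => ⟨blk v, blk_lt v⟩
    have h1 := DomMulAct.stabilizer_card f
    have h2 : ∀ i : Fin t, Fintype.card {a // f a = i} = 2 ^ (i : ℕ) := by
      intro i
      rw [Fintype.card_subtype, ← card_block i.isLt]
      congr 1
      apply Finset.filter_congr
      intro v _
      simp only [f, Fin.ext_iff]
    rw [Finset.prod_range, ← Fintype.card_subtype]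
    rw [Finset.prod_congr rfl (fun i _ => by rw [h2 i])] at h1
    rw [← h1]
    apply Fintype.card_congr
    apply Equiv.subtypeEquivRight
    intro g
    rw [aut_iff ht]
    constructor
    · intro h
      funext v
      exact Fin.ext (h v)
    · intro h v
      exact congrArg Fin.val (congrFun h v)
  have hfin : (copies t).Finite := Set.toFinite _
  have hcop : (copies t).ncard = hfin.toFinset.card := Set.ncard_eq_toFinset_card _ hfin
  have hfact : (Finset.univ : Finset (Equiv.Perm (Fin n))).card = n.factorial := by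
    rw [Finset.card_univ, Fintype.card_perm, Fintype.card_fin]
  have hmaps : ∀ g ∈ (Finset.univ : Finset (Equiv.Perm (Fin n))),
      (H t).comap g ∈ hfin.toFinset := by
    intro g _
    rw [Set.Finite.mem_toFinset]
    exact ⟨⟨g, by intro a b; rfl⟩⟩
  have hsum := Finset.card_eq_sum_card_fiberwise
    (f := fun g : Equiv.Perm (Fin n) => (H t).comap g) (t := hfin.toFinset) hmaps
  rw [hcop, ← hfact, ← haut, hsum]
  symm
  apply Finset.sum_const_nat
  · intro G hG
    rw [Set.Finite.mem_toFinset] at hG
    obtain ⟨e⟩ := hG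
    have he : (H t).comap e.toEquiv = G := by
      ext u v
      rw [SimpleGraph.comap_adj]
      exact e.map_adj_iff
    let σ : Equiv.Perm (Fin n) := e.toEquiv
    have hσ : (H t).comap σ = G := he
    apply Finset.card_bij (fun (g : Equiv.Perm (Fin n)) _ => g * σ⁻¹)
    · intro g hg
      have hg' := (Finset.mem_filter.mp hg).2
      refine Finset.mem_filter.mpr ⟨Finset.mem_univ _, ?_⟩
      have h1 : (H t).comap (g * σ⁻¹ : Equiv.Perm (Fin n)) =
          ((H t).comap g).comap (σ⁻¹ : Equiv.Perm (Fin n)) := by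
        rw [SimpleGraph.comap_comap]; rfl
      rw [h1, hg', ← hσ, SimpleGraph.comap_comap]
      have : (σ : Fin n → Fin n) ∘ (σ⁻¹ : Equiv.Perm (Fin n)) = id := by
        funext x; simp
      rw [this, SimpleGraph.comap_id]
    · intro a _ b _ hab
      exact mul_right_cancel hab
    · intro g hg
      have hg' := (Finset.mem_filter.mp hg).2
      refine ⟨g * σ, Finset.mem_filter.mpr ⟨Finset.mem_univ _, ?_⟩, by group⟩
      have h1 : (H t).comap (g * σ : Equiv.Perm (Fin n)) = ((H t).comap g).comap σ := by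
        rw [SimpleGraph.comap_comap]; rfl
      rw [h1, hg', hσ]

lemma padic_two_pow (t : ℕ) : padicValNat 2 (2 ^ t).factorial = 2 ^ t - 1 := by
  induction t with
  | zero => simp
  | succ t ih =>
    rw [pow_succ', padicValNat_factorial_mul, ih]
    have : 1 ≤ 2 ^ t := Nat.one_le_two_pow
    omega

lemma odd_copies {t : ℕ} (ht : 5 ≤ t) : ((copies t).ncard : ZMod 2) = 1 := by
  have h := card_copies ht
  have hprod : ∀ s : ℕ, ∏ j ∈ Finset.range s, (2 ^ j).factorial ≠ 0 := by
    intro s
    rw [Finset.prod_ne_zero_iff]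
    exact fun j _ => Nat.factorial_ne_zero _
  have hv : ∀ s : ℕ, padicValNat 2 (∏ j ∈ Finset.range s, (2 ^ j).factorial) + s = 2 ^ s - 1 := by
    intro s
    induction s with
    | zero => simp
    | succ s ih =>
      rw [Finset.prod_range_succ, padicValNat.mul (hprod s) (Nat.factorial_ne_zero _),
        padic_two_pow, pow_succ']
      have : 1 ≤ 2 ^ s := Nat.one_le_two_pow
      omega
  have hfac : padicValNat 2 (2 ^ t - 1).factorial + t = 2 ^ t - 1 := by
    have h1 := padic_two_pow t
    have h2 : (2 ^ t).factorial = 2 ^ t * (2 ^ t - 1).factorial :=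
      (Nat.mul_factorial_pred (by positivity)).symm
    rw [h2, padicValNat.mul (by positivity) (Nat.factorial_ne_zero _), padicValNat.prime_pow] at h1
    omega
  have hne : (copies t).ncard ≠ 0 := by
    intro h0
    rw [h0, zero_mul] at h
    exact Nat.factorial_ne_zero _ h.symm
  have h3 : padicValNat 2 (copies t).ncard = 0 := by
    have h4 := congrArg (padicValNat 2) h
    rw [padicValNat.mul hne (hprod t)] at h4
    have h5 := hv t
    omega
  have h6 : ¬ 2 ∣ (copies t).ncard := by
    intro hd
    have := (dvd_iff_padicValNat_ne_zero (p := 2) hne).mp hd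
    exact this h3
  have h7 : (copies t).ncard % 2 = 1 := by omega
  rw [← ZMod.natCast_mod, h7]
  rfl

/-! ### The classes -/

/-- A subgraph of a copy of `H t` containing `H t` is a copy of `H t`. -/
lemma iso_of_contained {m t : ℕ} (G' : SimpleGraph (Fin m)) (h1 : (H t).IsContained G')
    (h2 : G'.IsContained (H t)) : Nonempty (G' ≃g H t) := by
  obtain ⟨f⟩ := h1
  obtain ⟨g⟩ := h2
  have hcard : Fintype.card (Fin m) = Fintype.card (Fin (2 ^ t - 1)) :=
    le_antisymm (Fintype.card_le_of_injective _ g.injective)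
      (Fintype.card_le_of_injective _ f.injective)
  have hg : Function.Bijective g :=
    (Fintype.bijective_iff_injective_and_card _).mpr ⟨g.injective, hcard⟩
  have hf : Function.Bijective f :=
    (Fintype.bijective_iff_injective_and_card _).mpr ⟨f.injective, hcard.symm⟩
  let σ : Equiv.Perm (Fin m) := (Equiv.ofBijective g hg).trans (Equiv.ofBijective f hf)
  have hσ : ∀ a b, G'.Adj a b → G'.Adj (σ a) (σ b) := by
    intro a b hab
    exact f.toHom.map_adj (g.toHom.map_adj hab)
  have hσk : ∀ (k : ℕ) (a b), G'.Adj a b → G'.Adj ((σ ^ k) a) ((σ ^ k) b) := by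
    intro k
    induction k with
    | zero => intro a b h; simpa using h
    | succ k ih =>
      intro a b h
      rw [pow_succ']
      exact hσ _ _ (ih _ _ h)
  refine ⟨⟨Equiv.ofBijective g hg, ?_⟩⟩
  intro a b
  constructor
  · intro h
    have h3 : G'.Adj (σ a) (σ b) := f.toHom.map_adj h
    have h4 := hσk (orderOf σ - 1) _ _ h3
    have h5 : ∀ x, (σ ^ (orderOf σ - 1)) (σ x) = x := by
      intro x
      have h6 : σ ^ (orderOf σ - 1) * σ = 1 := by
        rw [← pow_succ, Nat.sub_add_cancel (orderOf_pos σ), pow_orderOf_eq_one]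
      rw [← Equiv.Perm.mul_apply, h6]
      rfl
    rwa [h5, h5] at h4
  · intro h
    exact g.toHom.map_adj h

lemma cls_monotone (S : Set ℕ) : MonotoneClass (cls S) := by
  intro m n e G hG G' hG' t ht hto hcon
  have hG'G : G'.IsContained G := by
    refine ⟨⟨⟨fun x => e x, ?_⟩, e.injective⟩⟩
    intro a b hab
    exact hG' hab
  obtain ⟨htS, ⟨φ⟩⟩ := hG t ht hto (hcon.trans hG'G)
  refine ⟨htS, iso_of_contained G' hcon (hG'G.trans ⟨φ.toCopy⟩)⟩

lemma cls_hereditary (S : Set ℕ) : Hereditary (cls S) := by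
  intro m n e G hG
  exact cls_monotone S m n e G hG _ le_rfl

lemma speed_cls {S : Set ℕ} {t : ℕ} (ht : 5 ≤ t) (hto : Odd t) (htS : t ∈ S) :
    speed (cls S) (2 ^ t - 1) = speed (cls ∅) (2 ^ t - 1) + (copies t).ncard := by
  unfold speed
  rw [← Set.ncard_union_eq]
  · congr 1
    ext G
    constructor
    · intro hG
      by_cases h : ∃ s, 5 ≤ s ∧ Odd s ∧ (H s).IsContained G
      · obtain ⟨s, hs, hso, hcon⟩ := h
        obtain ⟨hsS, ⟨φ⟩⟩ := hG s hs hso hcon
        have hcard := Fintype.card_congr φ.toEquiv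
        rw [Fintype.card_fin, Fintype.card_fin] at hcard
        have h2 : 1 ≤ 2 ^ s := Nat.one_le_two_pow
        have h3 : 1 ≤ 2 ^ t := Nat.one_le_two_pow
        have hst : s = t := Nat.pow_right_injective (le_refl 2) (by simp only; omega)
        subst hst
        exact Or.inr ⟨φ⟩
      · left
        intro s hs hso hcon
        exact absurd ⟨s, hs, hso, hcon⟩ h
    · rintro (hG | ⟨⟨φ⟩⟩)
      · intro s hs hso hcon
        exact absurd (hG s hs hso hcon).1 (Set.notMem_empty s)
      · intro s hs hso hcon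
        have hst := eq_of_contained hs ht hso (hcon.trans ⟨φ.toCopy⟩)
        subst hst
        exact ⟨htS, ⟨φ⟩⟩
  · rw [Set.disjoint_left]
    rintro G hG ⟨φ⟩
    exact (hG t ht hto ⟨φ.symm.toCopy⟩).1

lemma speed_cls' {S : Set ℕ} {t : ℕ} (ht : 5 ≤ t) (hto : Odd t) (htS : t ∉ S) :
    speed (cls S) (2 ^ t - 1) = speed (cls ∅) (2 ^ t - 1) := by
  unfold speed
  congr 1
  ext G
  constructor
  · intro hG s hs hso hcon
    obtain ⟨hsS, ⟨φ⟩⟩ := hG s hs hso hcon
    have hcard := Fintype.card_congr φ.toEquiv
    rw [Fintype.card_fin, Fintype.card_fin] at hcard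
    have h2 : 1 ≤ 2 ^ s := Nat.one_le_two_pow
    have h3 : 1 ≤ 2 ^ t := Nat.one_le_two_pow
    have hst : s = t := Nat.pow_right_injective (le_refl 2) (by simp only; omega)
    subst hst
    exact absurd hsS htS
  · intro hG s hs hso hcon
    exact absurd (hG s hs hso hcon).1 (Set.notMem_empty s)

/-- The speed modulo 2 determines the set. -/
lemma mem_iff {S : Set ℕ} {t : ℕ} (ht : 5 ≤ t) (hto : Odd t) :
    t ∈ S ↔ (speed (cls S) (2 ^ t - 1) : ZMod 2) ≠ (speed (cls ∅) (2 ^ t - 1) : ZMod 2) := by
  constructor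
  · intro h
    rw [speed_cls ht hto h]
    push_cast
    rw [odd_copies ht]
    intro h2
    have : (1 : ZMod 2) = 0 := by linear_combination h2
    exact absurd this (by decide)
  · intro h
    by_contra hS
    exact h (by rw [speed_cls' ht hto hS])

/-! ### Linear recurrences modulo 2 -/

/-- The sequences modulo 2 satisfying eventually a linear recurrence. -/
def rec2 : Set (ℕ → ZMod 2) :=
  {s | ∃ r p : ℕ, ∃ α : Fin p → ZMod 2, ∀ n ≥ r, s (n + p) = ∑ i : Fin p, α i * s (n + i)}

lemma rec2_countable : rec2.Countable := by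
  have h : rec2 ⊆ ⋃ (r : ℕ) (p : ℕ) (α : Fin p → ZMod 2) (f : Fin (r + p) → ZMod 2),
      {s | (∀ n ≥ r, s (n + p) = ∑ i : Fin p, α i * s (n + i)) ∧ ∀ i : Fin (r + p), s i = f i} := by
    rintro s ⟨r, p, α, hs⟩
    simp only [Set.mem_iUnion]
    exact ⟨r, p, α, fun i => s i, hs, fun i => rfl⟩
  refine Set.Countable.mono h ?_
  refine Set.countable_iUnion fun r => Set.countable_iUnion fun p =>
    Set.countable_iUnion fun α => Set.countable_iUnion fun f => ?_
  apply Set.Subsingleton.countable
  rintro s ⟨hs1, hs2⟩ s' ⟨hs1', hs2'⟩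
  funext n
  induction n using Nat.strong_induction_on with
  | _ n ih =>
    by_cases hn : n < r + p
    · rw [hs2 ⟨n, hn⟩, hs2' ⟨n, hn⟩]
    · have h1 := hs1 (n - p) (by omega)
      have h2 := hs1' (n - p) (by omega)
      have h3 : n - p + p = n := by omega
      rw [h3] at h1 h2
      rw [h1, h2]
      apply Finset.sum_congr rfl
      intro i _
      rw [ih (n - p + i) (by have := i.isLt; omega)]

lemma rec2_of_mcFinite {s : ℕ → ℕ} (h : MCFinite s) : (fun n => (s n : ZMod 2)) ∈ rec2 := by
  obtain ⟨r, p, -, -, α, hα⟩ := h 2 (by norm_num)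
  refine ⟨r, p, fun i => (α i : ZMod 2), fun n hn => ?_⟩
  have h1 := hα n hn
  have h2 := (ZMod.intCast_eq_intCast_iff _ _ 2).mpr h1
  push_cast at h2
  simp only
  rw [h2, Finset.sum_range]

/-- There is a monotone (hence hereditary) class of graphs whose speed is not MC-finite. -/
theorem result : ∃ C : ∀ n : ℕ, Set (SimpleGraph (Fin n)),
    MonotoneClass C ∧ Hereditary C ∧ ¬ MCFinite (speed C) := by
  by_contra hcon
  have hall : ∀ S : Set ℕ, MCFinite (speed (cls S)) := by
    intro S
    by_contra h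
    exact hcon ⟨cls S, cls_monotone S, cls_hereditary S, h⟩
  let F : Set ℕ → rec2 := fun A =>
    ⟨fun n => (speed (cls ((fun a => 2 * a + 5) '' A)) n : ZMod 2), rec2_of_mcFinite (hall _)⟩
  have hF : Function.Injective F := by
    intro A B hAB
    have h1 := congrArg Subtype.val hAB
    ext a
    have hodd : Odd (2 * a + 5) := ⟨a + 2, by ring⟩
    have hinj : Function.Injective (fun a : ℕ => 2 * a + 5) := by
      intro x y hxy
      simp only at hxy
      omega
    rw [← hinj.mem_set_image (s := A), ← hinj.mem_set_image (s := B),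
      mem_iff (by omega) hodd, mem_iff (by omega) hodd]
    have h2 := congrFun h1 (2 ^ (2 * a + 5) - 1)
    simp only [F] at h2
    rw [h2]
  have := rec2_countable.to_subtype
  have hc : Countable (Set ℕ) := hF.countable
  obtain ⟨g, hg⟩ := exists_injective_nat (Set ℕ)
  exact Function.cantor_injective g hg

end Pool.Agent.Results.MP_337eac_co.NotMCFinite
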